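import Mathlib

namespace Pool.Agent.Results.MP_3d59a4_gt.NotLambdaConnected

open Set Topology TopologicalSpace

/-- A subcontinuum of a space `Z`: a compact connected (in particular nonempty) subset. -/
def IsSubcontinuum {Z : Type*} [TopologicalSpace Z] (K : Set Z) : Prop :=
  IsCompact K ∧ IsConnected K

/-- `K` is the union of two proper subcontinua. -/
def IsDecomposable {Z : Type*} [TopologicalSpace Z] (K : Set Z) : Prop :=
  ∃ A B : Set Z, IsSubcontinuum A ∧ IsSubcontinuum B ∧ A ∪ B = K ∧ A ≠ K ∧ B ≠ K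

/-- Every nondegenerate subcontinuum of `K` is decomposable. -/
def IsHereditarilyDecomposable {Z : Type*} [TopologicalSpace Z] (K : Set Z) : Prop :=
  ∀ L : Set Z, L ⊆ K → IsSubcontinuum L → L.Nontrivial → IsDecomposable L

/-- Any two points lie in a hereditarily decomposable subcontinuum. -/
def IsLambdaConnected (Z : Type*) [TopologicalSpace Z] : Prop :=
  ∀ p q : Z, ∃ K : Set Z, IsSubcontinuum K ∧ IsHereditarilyDecomposable K ∧ p ∈ K ∧ q ∈ K

/-- The intersection of a chain of subcontinua is a subcontinuum. -/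
theorem isSubcontinuum_sInter {Z : Type*} [TopologicalSpace Z] [CompactSpace Z] [T2Space Z]
    {c : Set (Set Z)} (hc : IsChain (· ⊆ ·) c) (hne : c.Nonempty)
    (h : ∀ K ∈ c, IsSubcontinuum K) : IsSubcontinuum (⋂₀ c) := by
  have hcl : ∀ K ∈ c, IsClosed K := fun K hK => (h K hK).1.isClosed
  have hdir : DirectedOn (· ⊇ ·) c := by
    intro A hA B hB
    rcases hc.total hA hB with h1 | h1
    · exact ⟨A, hA, subset_rfl, h1⟩
    · exact ⟨B, hB, h1, subset_rfl⟩
  have : Nonempty c := hne.to_subtype
  have hclI : IsClosed (⋂₀ c) := isClosed_sInter hcl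
  refine ⟨hclI.isCompact, ?_, ?_⟩
  · exact IsCompact.nonempty_sInter_of_directed_nonempty_isCompact_isClosed hdir
      (fun K hK => (h K hK).2.1) (fun K hK => (h K hK).1) hcl
  · rw [isPreconnected_iff_subset_of_fully_disjoint_closed hclI]
    intro u v hu hv huv hd
    obtain ⟨U, V, hU, hV, huU, hvV, hUV⟩ := normal_separation hu hv hd
    -- some K in c is inside U ∪ V
    have : ∃ K ∈ c, K ⊆ U ∪ V := by
      by_contra hno
      push Not at hno
      let t : c → Set Z := fun K => (K : Set Z) \ (U ∪ V)
      have ht : (⋂ K, t K).Nonempty := by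
        refine IsCompact.nonempty_iInter_of_directed_nonempty_isCompact_isClosed t ?_ ?_ ?_ ?_
        · intro A B
          obtain ⟨C, hC, h1, h2⟩ := hdir A A.2 B B.2
          exact ⟨⟨C, hC⟩, sdiff_subset_sdiff_left h1, sdiff_subset_sdiff_left h2⟩
        · intro K
          obtain ⟨x, hx, hx2⟩ := not_subset.mp (hno K K.2)
          exact ⟨x, hx, hx2⟩
        · intro K
          exact (h K K.2).1.diff (hU.union hV)
        · intro K
          exact (hcl K K.2).sdiff (hU.union hV)
      obtain ⟨x, hx⟩ := ht
      rw [mem_iInter] at hx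
      obtain ⟨K0, hK0⟩ := hne
      have hxI : x ∈ ⋂₀ c := fun K hK => (hx ⟨K, hK⟩).1
      rcases huv hxI with h1 | h1
      · exact (hx ⟨K0, hK0⟩).2 (Or.inl (huU h1))
      · exact (hx ⟨K0, hK0⟩).2 (Or.inr (hvV h1))
    obtain ⟨K, hK, hKUV⟩ := this
    have hsub : ⋂₀ c ⊆ K := sInter_subset_of_mem hK
    rcases IsPreconnected.subset_or_subset hU hV hUV hKUV (h K hK).2.2 with h1 | h1
    · left
      intro x hx
      rcases huv hx with h2 | h2
      · exact h2
      · exact absurd (hvV h2) (Set.disjoint_left.mp hUV (h1 (hsub hx)))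
    · right
      intro x hx
      rcases huv hx with h2 | h2
      · exact absurd (h1 (hsub hx)) (Set.disjoint_left.mp hUV (huU h2))
      · exact h2

/-- A hereditarily decomposable continuum has no continuous map onto a nondegenerate
indecomposable continuum. -/
theorem image_ne_univ {Z X : Type*} [TopologicalSpace Z] [CompactSpace Z] [T2Space Z]
    [TopologicalSpace X] [T2Space X] [Nontrivial X] (hX : ¬ IsDecomposable (univ : Set X))
    {f : Z → X} (hf : Continuous f) {K : Set Z} (hK : IsSubcontinuum K)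
    (hd : IsHereditarilyDecomposable K) : f '' K ≠ univ := by
  intro hfK
  let S : Set (Set Z) := {L | L ⊆ K ∧ IsSubcontinuum L ∧ f '' L = univ}
  obtain ⟨M, hMK, hM⟩ := zorn_superset_nonempty S (by
    intro c hcS hc hne
    refine ⟨⋂₀ c, ⟨?_, ?_, ?_⟩, fun s hs => sInter_subset_of_mem hs⟩
    · obtain ⟨L, hL⟩ := hne
      exact (sInter_subset_of_mem hL).trans (hcS hL).1
    · exact isSubcontinuum_sInter hc hne (fun L hL => (hcS hL).2.1)
    · rw [eq_univ_iff_forall]
      intro x
      have : Nonempty c := hne.to_subtype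
      let t : c → Set Z := fun L => (L : Set Z) ∩ f ⁻¹' {x}
      have hxcl : IsClosed (f ⁻¹' {x}) := isClosed_singleton.preimage hf
      have ht : (⋂ L, t L).Nonempty := by
        refine IsCompact.nonempty_iInter_of_directed_nonempty_isCompact_isClosed t ?_ ?_ ?_ ?_
        · intro A B
          rcases hc.total A.2 B.2 with h1 | h1
          · exact ⟨A, subset_rfl, inter_subset_inter_left _ h1⟩
          · exact ⟨B, inter_subset_inter_left _ h1, subset_rfl⟩
        · intro L
          have : x ∈ f '' (L : Set Z) := by rw [(hcS L.2).2.2]; trivial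
          obtain ⟨z, hz, hzx⟩ := this
          exact ⟨z, hz, hzx⟩
        · intro L
          exact (hcS L.2).2.1.1.inter_right hxcl
        · intro L
          exact (hcS L.2).2.1.1.isClosed.inter hxcl
      obtain ⟨z, hz⟩ := ht
      rw [mem_iInter] at hz
      obtain ⟨L0, hL0⟩ := hne
      exact ⟨z, fun L hL => (hz ⟨L, hL⟩).1, (hz ⟨L0, hL0⟩).2⟩) K ⟨subset_rfl, hK, hfK⟩
  obtain ⟨⟨-, hMc, hMf⟩, hmin⟩ := hM
  have hMn : M.Nontrivial := by
    obtain ⟨x, y, hxy⟩ := exists_pair_ne X
    obtain ⟨a, ha, rfl⟩ : x ∈ f '' M := by rw [hMf]; trivial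
    obtain ⟨b, hb, rfl⟩ : y ∈ f '' M := by rw [hMf]; trivial
    exact ⟨a, ha, b, hb, fun h => hxy (by rw [h])⟩
  obtain ⟨A, B, hA, hB, hAB, hAM, hBM⟩ := hd M hMK hMc hMn
  have hAM' : A ⊆ M := hAB ▸ subset_union_left
  have hBM' : B ⊆ M := hAB ▸ subset_union_right
  have hcont : ∀ C : Set Z, IsSubcontinuum C → IsSubcontinuum (f '' C) := fun C hC =>
    ⟨hC.1.image hf, hC.2.image f hf.continuousOn⟩
  refine hX ⟨f '' A, f '' B, hcont A hA, hcont B hB, ?_, ?_, ?_⟩
  · rw [← image_union, hAB, hMf]
  · intro h
    exact hAM (hAM'.antisymm (hmin ⟨hAM'.trans hMK, hA, h⟩ hAM'))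
  · intro h
    exact hBM (hBM'.antisymm (hmin ⟨hBM'.trans hMK, hB, h⟩ hBM'))

/-! ### The inverse limit of the tent map -/

/-- The tent map on the unit interval. -/
noncomputable def tent (t : unitInterval) : unitInterval :=
  ⟨1 - |2 * (t : ℝ) - 1|, by
    have h0 := t.2.1
    have h1 := t.2.2
    have h2 : |2 * (t : ℝ) - 1| ≤ 1 := abs_le.mpr ⟨by linarith, by linarith⟩
    exact ⟨by linarith, by linarith [abs_nonneg (2 * (t : ℝ) - 1)]⟩⟩

theorem continuous_tent : Continuous tent := by
  unfold tent
  fun_prop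

theorem tent_half (s : unitInterval) : ∃ t : unitInterval, (t : ℝ) ≤ 1 / 2 ∧ tent t = s := by
  have h0 := s.2.1
  have h1 := s.2.2
  refine ⟨⟨(s : ℝ) / 2, by linarith, by linarith⟩, by simp; linarith, ?_⟩
  apply Subtype.ext
  simp only [tent]
  rw [abs_of_nonpos (by linarith)]
  ring

theorem tent_half' (s : unitInterval) : ∃ t : unitInterval, 1 / 2 ≤ (t : ℝ) ∧ tent t = s := by
  have h0 := s.2.1
  have h1 := s.2.2
  refine ⟨⟨1 - (s : ℝ) / 2, by linarith, by linarith⟩, by simp; linarith, ?_⟩
  apply Subtype.ext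
  simp only [tent]
  rw [abs_of_nonneg (by linarith)]
  ring

/-- The inverse limit, as a set of sequences. -/
def limSet : Set (ℕ → unitInterval) := {x | ∀ n, x n = tent (x (n + 1))}

/-- Partial inverse limits. -/
def partSet (N : ℕ) : Set (ℕ → unitInterval) := {x | ∀ n < N, x n = tent (x (n + 1))}

theorem isClosed_partSet (N : ℕ) : IsClosed (partSet N) := by
  have : partSet N = ⋂ n, ⋂ (_ : n < N), {x : ℕ → unitInterval | x n = tent (x (n + 1))} := by
    ext x; simp [partSet]
  rw [this]
  refine isClosed_iInter fun n => isClosed_iInter fun _ => isClosed_eq (continuous_apply n) ?_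
  exact continuous_tent.comp (continuous_apply (n + 1))

/-- The parametrisation of `partSet N`. -/
noncomputable def par (N : ℕ) (y : ℕ → unitInterval) : ℕ → unitInterval :=
  fun n => if N ≤ n then y n else tent^[N - n] (y N)

theorem continuous_par (N : ℕ) : Continuous (par N) := by
  refine continuous_pi fun n => ?_
  unfold par
  by_cases h : N ≤ n
  · simpa [h] using continuous_apply n
  · simp only [h, if_false]
    exact (continuous_tent.iterate (N - n)).comp (continuous_apply N)

theorem range_par (N : ℕ) : range (par N) = partSet N := by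
  apply Subset.antisymm
  · rintro x ⟨y, rfl⟩ n hn
    have h1 : ¬ N ≤ n := by omega
    by_cases h2 : N ≤ n + 1
    · have h3 : N = n + 1 := by omega
      subst h3
      simp [par]
    · simp only [par, h1, h2, if_false]
      have : N - n = (N - (n + 1)) + 1 := by omega
      rw [this, Function.iterate_succ_apply']
  · intro x hx
    refine ⟨x, funext fun n => ?_⟩
    unfold par
    by_cases h : N ≤ n
    · simp [h]
    · simp only [h, if_false]
      have key : ∀ k, k ≤ N → tent^[k] (x N) = x (N - k) := by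
        intro k
        induction k with
        | zero => intro _; simp
        | succ k ih =>
          intro hk
          rw [Function.iterate_succ_apply', ih (by omega)]
          have := hx (N - (k + 1)) (by omega)
          rw [this]
          congr 2
          omega
      rw [key (N - n) (by omega)]
      congr 1
      omega

theorem isSubcontinuum_partSet (N : ℕ) : IsSubcontinuum (partSet N) :=
  ⟨(isClosed_partSet N).isCompact, range_par N ▸ isConnected_range (continuous_par N)⟩

theorem limSet_eq : limSet = ⋂₀ (range partSet) := by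
  ext x
  simp only [limSet, partSet, sInter_range, mem_iInter, mem_ofPred_eq]
  exact ⟨fun h N n _ => h n, fun h n => h (n + 1) n (by omega)⟩

theorem isSubcontinuum_limSet : IsSubcontinuum limSet := by
  rw [limSet_eq]
  refine isSubcontinuum_sInter ?_ (range_nonempty _) ?_
  · rintro _ ⟨m, rfl⟩ _ ⟨n, rfl⟩ _
    rcases le_total m n with h | h
    · right
      intro x hx k hk
      exact hx k (by omega)
    · left
      intro x hx k hk
      exact hx k (by omega)
  · rintro _ ⟨N, rfl⟩
    exact isSubcontinuum_partSet N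

/-- The inverse limit of the tent map. -/
abbrev Lim : Type := limSet

instance : CompactSpace Lim := isCompact_iff_compactSpace.mp isSubcontinuum_limSet.1

instance : ConnectedSpace Lim := isConnected_iff_connectedSpace.mp isSubcontinuum_limSet.2

/-- The point with all coordinates `0`. -/
def pt0 : Lim := ⟨fun _ => 0, fun _ => by apply Subtype.ext; simp [tent]⟩

/-- The number `2/3`. -/
noncomputable def twoThirds : unitInterval := ⟨2 / 3, by norm_num, by norm_num⟩

/-- The point with all coordinates `2/3`. -/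
noncomputable def pt1 : Lim := ⟨fun _ => twoThirds, fun _ => by
  apply Subtype.ext
  simp only [tent, twoThirds]
  rw [abs_of_nonneg (by norm_num)]
  norm_num⟩

instance : Nontrivial Lim := ⟨pt0, pt1, fun h => by
  have h1 := congrArg (fun x : Lim => ((x.1 0 : unitInterval) : ℝ)) h
  simp only [pt0, pt1, twoThirds] at h1
  norm_num at h1⟩

/-- The coordinate maps. -/
def pr (n : ℕ) (x : Lim) : unitInterval := x.1 n

theorem continuous_pr (n : ℕ) : Continuous (pr n) :=
  (continuous_apply n).comp continuous_subtype_val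

theorem pr_succ (n : ℕ) (x : Lim) : pr n x = tent (pr (n + 1) x) := x.2 n

/-- `Full A n`: the n-th coordinate map is onto on `A`. -/
def Full (A : Set Lim) (n : ℕ) : Prop := pr n '' A = univ

theorem Full.pred {A : Set Lim} {n : ℕ} (h : Full A (n + 1)) : Full A n := by
  unfold Full at *
  rw [eq_univ_iff_forall] at *
  intro s
  obtain ⟨t, -, ht⟩ := tent_half s
  obtain ⟨x, hx, hxt⟩ := h t
  exact ⟨x, hx, by rw [pr_succ, hxt, ht]⟩

theorem Full.of_le {A : Set Lim} {m n : ℕ} (h : m ≤ n) (hn : Full A n) : Full A m := by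
  induction n, h using Nat.le_induction with
  | base => exact hn
  | succ k _ ih => exact ih hn.pred

theorem eq_univ_of_full {A : Set Lim} (hA : IsSubcontinuum A) (h : ∀ n, Full A n) :
    A = univ := by
  rw [eq_univ_iff_forall]
  intro x
  let t : ℕ → Set Lim := fun n => A ∩ pr n ⁻¹' {pr n x}
  have hcl : ∀ n, IsClosed (t n) := fun n =>
    hA.1.isClosed.inter (isClosed_singleton.preimage (continuous_pr n))
  have ht : (⋂ n, t n).Nonempty := by
    refine IsCompact.nonempty_iInter_of_sequence_nonempty_isCompact_isClosed t ?_ ?_ ?_ hcl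
    · rintro n y ⟨hy, hy2⟩
      refine ⟨hy, ?_⟩
      simp only [mem_preimage, mem_singleton_iff] at hy2 ⊢
      rw [pr_succ, hy2, ← pr_succ]
    · intro n
      have : pr n x ∈ pr n '' A := by rw [h n]; trivial
      obtain ⟨y, hy, hyx⟩ := this
      exact ⟨y, hy, hyx⟩
    · exact (hcl 0).isCompact
  obtain ⟨y, hy⟩ := ht
  rw [mem_iInter] at hy
  have : y = x := Subtype.ext (funext fun n => (hy n).2)
  exact this ▸ (hy 0).1

theorem full_of_low {A : Set Lim} {n : ℕ} (h : ∀ t : unitInterval, (t : ℝ) ≤ 1 / 2 →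
    t ∈ pr (n + 1) '' A) : Full A n := by
  unfold Full
  rw [eq_univ_iff_forall]
  intro s
  obtain ⟨t, ht, hts⟩ := tent_half s
  obtain ⟨x, hx, hxt⟩ := h t ht
  exact ⟨x, hx, by rw [pr_succ, hxt, hts]⟩

theorem full_of_high {A : Set Lim} {n : ℕ} (h : ∀ t : unitInterval, 1 / 2 ≤ (t : ℝ) →
    t ∈ pr (n + 1) '' A) : Full A n := by
  unfold Full
  rw [eq_univ_iff_forall]
  intro s
  obtain ⟨t, ht, hts⟩ := tent_half' s
  obtain ⟨x, hx, hxt⟩ := h t ht
  exact ⟨x, hx, by rw [pr_succ, hxt, hts]⟩

theorem ordConnected_image {A : Set Lim} (hA : IsSubcontinuum A) (n : ℕ) :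
    (pr n '' A).OrdConnected :=
  (hA.2.image _ (continuous_pr n).continuousOn).isPreconnected.ordConnected

/-- The number `1/2`. -/
noncomputable def oneHalf : unitInterval := ⟨1 / 2, by norm_num, by norm_num⟩

theorem pr_surj (N : ℕ) (t : unitInterval) : ∃ x : Lim, pr N x = t := by
  choose g hg using tent_half
  refine ⟨⟨fun k => if k ≤ N then tent^[N - k] t else g^[k - N] t, ?_⟩, ?_⟩
  · intro k
    by_cases h1 : k ≤ N
    · by_cases h2 : k + 1 ≤ N
      · simp only [h1, h2, if_true]
        have : N - k = (N - (k + 1)) + 1 := by omega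
        rw [this, Function.iterate_succ_apply']
      · have h3 : k = N := by omega
        subst h3
        simp [(hg _).2]
    · have h2 : ¬ k + 1 ≤ N := by omega
      simp only [h1, h2, if_false]
      have : k + 1 - N = (k - N) + 1 := by omega
      rw [this, Function.iterate_succ_apply', (hg _).2]
  · simp [pr]

theorem not_isDecomposable : ¬ IsDecomposable (univ : Set Lim) := by
  rintro ⟨A, B, hA, hB, hAB, hA', hB'⟩
  have step : ∀ C D : Set Lim, IsSubcontinuum C → IsSubcontinuum D → C ∪ D = univ → ∀ n,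
      oneHalf ∈ pr (n + 1) '' C → Full C n ∨ Full D n := by
    intro C D hC hD hCD n hh
    have hU : ∀ t : unitInterval, t ∈ pr (n + 1) '' C ∨ t ∈ pr (n + 1) '' D := by
      intro t
      obtain ⟨x, hx⟩ := pr_surj (n + 1) t
      have hx' : x ∈ C ∪ D := by rw [hCD]; trivial
      rcases hx' with h | h
      · left; exact ⟨x, h, hx⟩
      · right; exact ⟨x, h, hx⟩
    have oC := ordConnected_image hC (n + 1)
    have oD := ordConnected_image hD (n + 1)
    rcases hU 0 with h0 | h0
    · left
      refine full_of_low fun t ht => oC.out h0 hh ⟨t.2.1, ?_⟩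
      exact Subtype.coe_le_coe.mp (by simpa [oneHalf] using ht)
    · rcases hU 1 with h1 | h1
      · left
        refine full_of_high fun t ht => oC.out hh h1 ⟨?_, t.2.2⟩
        exact Subtype.coe_le_coe.mp (by simpa [oneHalf] using ht)
      · right
        exact full_of_low fun t _ => oD.out h0 h1 ⟨t.2.1, t.2.2⟩
  have key : ∀ n, Full A n ∨ Full B n := by
    intro n
    have : oneHalf ∈ pr (n + 1) '' A ∨ oneHalf ∈ pr (n + 1) '' B := by
      obtain ⟨x, hx⟩ := pr_surj (n + 1) oneHalf
      have hx' : x ∈ A ∪ B := by rw [hAB]; trivial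
      rcases hx' with h | h
      · left; exact ⟨x, h, hx⟩
      · right; exact ⟨x, h, hx⟩
    rcases this with h | h
    · exact step A B hA hB hAB n h
    · exact (step B A hB hA (by rw [union_comm]; exact hAB) n h).symm
  by_cases hall : ∀ n, Full A n
  · exact hA' (eq_univ_of_full hA hall)
  · push Not at hall
    obtain ⟨n, hn⟩ := hall
    refine hB' (eq_univ_of_full hB fun m => ?_)
    have h1 : ¬ Full A (max m n) := fun h => hn (h.of_le (le_max_right _ _))
    exact ((key (max m n)).resolve_left h1).of_le (le_max_left _ _)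

theorem eq_univ_of_mem {A : Set Lim} (hA : IsSubcontinuum A) (h0 : pt0 ∈ A) (h1 : pt1 ∈ A) :
    A = univ := by
  refine eq_univ_of_full hA fun n => full_of_low fun t ht => ?_
  refine (ordConnected_image hA (n + 1)).out ⟨pt0, h0, rfl⟩ ⟨pt1, h1, rfl⟩ ⟨t.2.1, ?_⟩
  refine Subtype.coe_le_coe.mp (ht.trans ?_)
  simp only [pr, pt1, twoThirds]
  norm_num

/-- There is a nondegenerate continuum `X` whose product with every continuum `Y` fails to be
`λ`-connected. -/
theorem result : ∃ (X : Type) (_ : TopologicalSpace X),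
    CompactSpace X ∧ ConnectedSpace X ∧ MetrizableSpace X ∧ Nontrivial X ∧
    ∀ (Y : Type) [TopologicalSpace Y] [CompactSpace Y] [ConnectedSpace Y] [MetrizableSpace Y],
      ¬ IsLambdaConnected (X × Y) := by
  refine ⟨Lim, inferInstance, inferInstance, inferInstance, inferInstance, inferInstance, ?_⟩
  intro Y _ _ _ _ hlam
  obtain ⟨y⟩ := (inferInstance : Nonempty Y)
  obtain ⟨K, hK, hKd, h0, h1⟩ := hlam (pt0, y) (pt1, y)
  refine image_ne_univ not_isDecomposable (continuous_fst (X := Lim) (Y := Y)) hK hKd ?_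
  exact eq_univ_of_mem ⟨hK.1.image continuous_fst, hK.2.image _ continuous_fst.continuousOn⟩
    ⟨_, h0, rfl⟩ ⟨_, h1, rfl⟩

end Pool.Agent.Results.MP_3d59a4_gt.NotLambdaConnected
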